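import Pool.Agent.helper17.RX.Spec

/-! Row ENV of project RX (MP_f42afa_pr): the entropy theorem for the coins of the lattice. -/

set_option autoImplicit false

namespace TP.TW

open DP MeasureTheory Finset

theorem ENV_enum (W : Finset V) : ∃ (m : ℕ) (ε : Fin m → V) (ex : (Fin m → Bool) → V → Bool),
    Function.Injective ε ∧ (∀ v ∈ W, ∃ i, ε i = v) ∧ (∀ x i, ex x (ε i) = x i) ∧
    (∀ β : V → Bool, ∀ v ∈ W, ex (fun i => β (ε i)) v = β v) := by
  classical
  refine ⟨#W, fun i => (W.equivFin.symm i : V),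
    fun x v => if h : v ∈ W then x (W.equivFin ⟨v, h⟩) else false, ?_, ?_, ?_, ?_⟩
  · intro i j h
    exact W.equivFin.symm.injective (Subtype.ext h)
  · intro v hv
    exact ⟨W.equivFin ⟨v, hv⟩, by simp⟩
  · intro x i
    have h : ((W.equivFin.symm i : W) : V) ∈ W := (W.equivFin.symm i).2
    simp
  · intro β v hv
    simp [hv]

theorem ENV_aux (p q c : ℝ) (hp : 0 < p) (hq : 0 < q) : c / q = p * (c * (1 / (p * q))) := by
  field_simp

open Classical in
theorem ENV (enx : EN.ENX_stmt) (prn : PRN_stmt) : ENV_stmt := by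
  intro κ T S Ω Λ z N E j hE hS hN
  have hP : IsProbabilityMeasure P1 := by unfold P1; infer_instance
  have hmono : ∀ F G : Set (V → Bool), F ⊆ G → Pr F ≤ Pr G := fun F G h => measureReal_mono h
  have hnn : ∀ F : Set (V → Bool), 0 ≤ Pr F := fun F => measureReal_nonneg
  have hN0 : 0 ≤ N :=
    le_trans (Finset.sum_nonneg fun τ _ => hnn _) (hN 0 z (mem_insert_self _ _))
  by_cases hE0 : Pr E = 0
  · rw [hE0, zero_mul]
    refine Finset.sum_nonpos fun τ _ => ?_
    rw [← hE0]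
    exact hmono _ _ Set.inter_subset_left
  have hEp : 0 < Pr E := lt_of_le_of_ne (hnn E) (Ne.symm hE0)
  have hE1 : Pr E ≤ 1 := by
    unfold Pr
    exact measureReal_le_one
  have h2m : ∀ m : ℕ, (0 : ℝ) < 2 ^ m := fun m => by positivity
  obtain ⟨m, ε, ex, hinj, hWε, hex, hβ⟩ := ENV_enum (Ω ∪ insert z Λ)
  have key : ∀ F : Set (V → Bool),
      (∀ b b' : V → Bool, (∀ v ∈ Ω ∪ insert z Λ, b v = b' v) → (b ∈ F ↔ b' ∈ F)) →
      ∀ s : Finset (Fin m → Bool), (∀ x, x ∈ s ↔ ex x ∈ F) → Pr F = (#s : ℝ) / 2 ^ m := by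
    intro F hF s hs
    have h := prn m ε hinj (fun x => ex x ∈ F)
    have hset : {β : V → Bool | ex (fun i => β (ε i)) ∈ F} = F := by
      ext β
      exact hF _ _ (hβ β)
    rw [hset] at h
    rw [h]
    have h1 : s = univ.filter (fun x : Fin m → Bool => ex x ∈ F) := by
      ext x
      rw [mem_filter, hs]
      simp
    rw [h1]
  have hdep : ∀ τ ∈ T, ∀ (i : ℕ) (β β' : V → Bool), (∀ v ∈ Ω, β v = β' v) →
      S τ i β = S τ i β' := by
    intro τ hτ i β β' h
    obtain ⟨h0, h1, h2⟩ := hS τ hτ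
    cases i with
    | zero => rw [h0, h0]
    | succ i => exact h2 i β β' fun v hv => h v ((h1 i β).2 hv)
  obtain ⟨S', hS'⟩ : ∃ S' : κ → ℕ → EN.Om m → Finset (Fin m),
      ∀ τ i x u, u ∈ S' τ i x ↔ ε u ∈ S τ i (ex x) :=
    ⟨fun τ i x => univ.filter (fun u => ε u ∈ S τ i (ex x)), fun τ i x u => by simp⟩
  have hR : ∀ τ ∈ T, EN.Rounds (S' τ) := by
    intro τ hτ
    obtain ⟨h0, h1, h2⟩ := hS τ hτ
    refine ⟨fun x => ?_, fun i x => ⟨fun u hu => ?_, fun y hy => ?_⟩⟩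
    · ext u
      rw [hS', h0]
      simp
    · rw [hS'] at hu ⊢
      exact (h1 i _).1 hu
    · have h3 : S τ (i + 1) (ex y) = S τ (i + 1) (ex x) := by
        refine (h2 i (ex x) (ex y) fun v hv => ?_).symm
        obtain ⟨u, rfl⟩ := hWε v (mem_union_left _ ((h1 i _).2 hv))
        rw [hex, hex]
        exact (hy u ((hS' _ _ _ _).2 hv)).symm
      ext u
      rw [hS', hS', h3]
  obtain ⟨z', hz'⟩ := hWε z (mem_union_right _ (mem_insert_self _ _))
  obtain ⟨Λ', hΛ'⟩ : ∃ Λ' : Finset (Fin m), ∀ u, u ∈ Λ' ↔ ε u ∈ Λ :=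
    ⟨univ.filter (fun u => ε u ∈ Λ), fun u => by simp⟩
  have hN' : ∀ i : ℕ, ∀ v ∈ insert z' Λ',
      ∑ τ ∈ T, (#{x : EN.Om m | v ∈ S' τ i x} : ℝ) / 2 ^ m ≤ N := by
    intro i v hv
    have hv' : ε v ∈ insert z Λ := by
      rcases mem_insert.1 hv with h | h
      · rw [h, hz']
        exact mem_insert_self _ _
      · exact mem_insert_of_mem ((hΛ' v).1 h)
    refine le_trans (le_of_eq ?_) (hN i (ε v) hv')
    refine sum_congr rfl fun τ hτ => ?_
    exact (key {β | ε v ∈ S τ i β} (fun b b' h => by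
      rw [Set.mem_setOf_eq, Set.mem_setOf_eq,
        hdep τ hτ i b b' (fun w hw => h w (mem_union_left _ hw))]) _ (fun x => by
      rw [mem_filter, Set.mem_setOf_eq]
      simp only [mem_univ, true_and]
      exact hS' τ i x v)).symm
  obtain ⟨Q, hQ⟩ : ∃ Q : EN.Om m → ℝ, ∀ x, Q x = if ex x ∈ E then 1 / (Pr E * 2 ^ m) else 0 :=
    ⟨fun x => if ex x ∈ E then 1 / (Pr E * 2 ^ m) else 0, fun x => rfl⟩
  have hEc := key E (fun b b' h =>
    hE b b' fun v hv => h v (mem_union_right _ (mem_insert_of_mem hv)))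
    (univ.filter fun x : Fin m → Bool => ex x ∈ E) (fun x => by simp)
  have hsum : ∀ s : Finset (EN.Om m), ∑ x ∈ s, Q x =
      (#(s.filter fun x => ex x ∈ E) : ℝ) * (1 / (Pr E * 2 ^ m)) := by
    intro s
    simp only [hQ]
    rw [← Finset.sum_filter, Finset.sum_const, nsmul_eq_mul]
  have hcard : (#{x : Fin m → Bool | ex x ∈ E} : ℝ) = Pr E * 2 ^ m := by
    rw [hEc]
    field_simp
  have hlaw : EN.Law Q := by
    refine ⟨fun x => ?_, ?_⟩
    · rw [hQ]
      split_ifs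
      · positivity
      · exact le_refl _
    · rw [hsum univ]
      have h5 : (#(univ.filter fun x : EN.Om m => ex x ∈ E) : ℝ) = Pr E * 2 ^ m := hcard
      rw [h5]
      have := h2m m
      field_simp
  have hQdep : ∀ x y : EN.Om m, (∀ u ∈ Λ', x u = y u) → Q x = Q y := by
    intro x y h
    have h6 : ex x ∈ E ↔ ex y ∈ E := by
      refine hE _ _ fun v hv => ?_
      obtain ⟨u, rfl⟩ := hWε v (mem_union_right _ (mem_insert_of_mem hv))
      rw [hex, hex]
      exact h u ((hΛ' u).2 hv)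
    rw [hQ, hQ]
    by_cases hx : ex x ∈ E
    · rw [if_pos hx, if_pos (h6.1 hx)]
    · rw [if_neg hx, if_neg (fun h' => hx (h6.2 h'))]
  have hL : 0 ≤ Real.log (1 / Pr E) := by
    refine Real.log_nonneg ?_
    rw [le_div_iff₀ hEp]
    linarith
  have hQle : ∀ x, Q x ≤ Real.exp (Real.log (1 / Pr E)) / 2 ^ m := by
    intro x
    rw [Real.exp_log (by positivity), hQ]
    split_ifs
    · rw [div_div]
    · positivity
  have hmain := enx j m κ T S' Λ' z' N hR hN' Q (Real.log (1 / Pr E)) hlaw hQdep hL hQle z'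
    (mem_insert_self _ _)
  have hleft : ∑ τ ∈ T, Pr (E ∩ {β | z ∈ S τ (j + 1) β}) =
      Pr E * ∑ τ ∈ T, ∑ x with z' ∈ S' τ (j + 1) x, Q x := by
    rw [Finset.mul_sum]
    refine sum_congr rfl fun τ hτ => ?_
    rw [hsum, key (E ∩ {β | z ∈ S τ (j + 1) β}) (fun b b' h => by
      rw [Set.mem_inter_iff, Set.mem_inter_iff, Set.mem_setOf_eq, Set.mem_setOf_eq,
        hdep τ hτ (j + 1) b b' (fun w hw => h w (mem_union_left _ hw)),
        hE b b' (fun v hv => h v (mem_union_right _ (mem_insert_of_mem hv)))])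
      ((univ.filter fun x : EN.Om m => z' ∈ S' τ (j + 1) x).filter fun x => ex x ∈ E)
      (fun x => by
        simp only [mem_filter, mem_univ, true_and, Set.mem_inter_iff, Set.mem_setOf_eq]
        rw [hS', hz', and_comm])]
    exact ENV_aux _ _ _ hEp (h2m m)
  rw [hleft]
  have hΛc : (#Λ' : ℝ) ≤ #Λ := by
    have h8 : #Λ' ≤ #Λ :=
      Finset.card_le_card_of_injOn ε (fun u hu => (hΛ' u).1 hu) (fun a _ b _ h => hinj h)
    exact_mod_cast h8
  have hc0 : (0 : ℝ) ≤ (#Λ' : ℝ) := Nat.cast_nonneg _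
  have hlog : Real.log ((#Λ' : ℝ) + 3) ≤ Real.log ((#Λ : ℝ) + 3) :=
    Real.log_le_log (by linarith) (by linarith)
  have hlog0 : 0 ≤ Real.log ((#Λ' : ℝ) + 3) := Real.log_nonneg (by linarith)
  have hj : (0 : ℝ) ≤ 3 * ((j : ℝ) + 1) := by positivity
  have hpow : (68 * (Real.log (1 / Pr E) + 3 * ((j : ℝ) + 1) * Real.log ((#Λ' : ℝ) + 3))) ^ j ≤
      (68 * (Real.log (1 / Pr E) + 3 * ((j : ℝ) + 1) * Real.log ((#Λ : ℝ) + 3))) ^ j := by
    have h10 := mul_nonneg hj hlog0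
    refine pow_le_pow_left₀ (mul_nonneg (by norm_num) (add_nonneg hL h10)) ?_ j
    have h9 := mul_le_mul_of_nonneg_left hlog hj
    linarith
  exact mul_le_mul_of_nonneg_left (le_trans hmain (mul_le_mul_of_nonneg_left hpow hN0)) hEp.le

end TP.TW
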